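import Pool.Agent.Q98.SPN.Stm

set_option autoImplicit false

namespace Pool.Agent.U473.GSP.GF

open Pool.Agent.Q98.SPN

lemma log_small : Real.log (10 / 9) ≤ 0.1055 := by
  rw [Real.log_le_iff_le_exp (by norm_num)]
  have h := Real.sum_le_exp_of_nonneg (x := 0.1055) (by norm_num) 4
  refine le_trans ?_ h
  simp only [Finset.sum_range_succ, Finset.sum_range_zero, Nat.factorial]
  norm_num

theorem t_GF : S_GF := by
  intro N hN
  refine ⟨?_, ?_, ?_, ?_⟩
  · intro x y hx hxy
    have hy : 0 < y := hx.trans_le hxy
    unfold gf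
    set M := max 1 (Real.log (N / y)) with hM
    have hM1 : 1 ≤ M := le_max_left _ _
    have hM2 : Real.log (N / y) ≤ M := le_max_right _ _
    have hu : 1 ≤ y / x := by rwa [one_le_div hx]
    have hl : Real.log (N / x) = Real.log (N / y) + Real.log (y / x) := by
      rw [← Real.log_mul (by positivity) (by positivity)]
      congr 1
      field_simp
    have h1 : Real.log (y / x) ≤ y / x - 1 := Real.log_le_sub_one_of_pos (by positivity)
    have h2 : max 1 (Real.log (N / x)) ≤ y / x * M := by
      apply max_le
      · nlinarith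
      · rw [hl]
        nlinarith
    calc x * max 1 (Real.log (N / x)) ≤ x * (y / x * M) := mul_le_mul_of_nonneg_left h2 hx.le
      _ = y * M := by field_simp
  · intro x hx
    unfold gf
    set M := max 1 (Real.log (N / x)) with hM
    have hM1 : 1 ≤ M := le_max_left _ _
    have hM2 : Real.log (N / x) ≤ M := le_max_right _ _
    have hl : Real.log (N / (9 / 10 * x)) = Real.log (N / x) + Real.log (10 / 9) := by
      rw [← Real.log_mul (by positivity) (by norm_num)]
      congr 1
      field_simp
    have h0 := log_small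
    have h2 : max 1 (Real.log (N / (9 / 10 * x))) ≤ 1.1055 * M := by
      apply max_le
      · linarith
      · rw [hl]
        linarith
    have h3 : 9 / 10 * x * max 1 (Real.log (N / (9 / 10 * x))) ≤ 9 / 10 * x * (1.1055 * M) :=
      mul_le_mul_of_nonneg_left h2 (by positivity)
    have h4 : 0 ≤ x * M := by positivity
    norm_num at h3 ⊢
    nlinarith
  · intro x hx
    unfold gf
    exact le_mul_of_one_le_right hx.le (le_max_left _ _)
  · intro x hx
    unfold gf
    set M := max 1 (Real.log (N / x)) with hM
    have hM1 : 1 ≤ M := le_max_left _ _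
    have hM2 : Real.log (N / x) ≤ M := le_max_right _ _
    have key : ∀ κ : ℕ, Real.log (N / x) ≤ κ → N ≤ x * Real.exp κ := by
      intro κ h
      rw [Real.log_le_iff_le_exp (by positivity)] at h
      rw [div_le_iff₀ hx] at h
      linarith
    by_cases h : Real.log (N / x) ≤ 2
    · refine ⟨2, le_rfl, key 2 (by exact_mod_cast h), ?_⟩
      have : x * 1 ≤ x * M := mul_le_mul_of_nonneg_left hM1 hx.le
      push_cast
      linarith
    · push Not at h
      have h1 : Real.log (N / x) ≤ ⌈Real.log (N / x)⌉₊ := Nat.le_ceil _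
      have h2 : (⌈Real.log (N / x)⌉₊ : ℝ) < Real.log (N / x) + 1 := Nat.ceil_lt_add_one (by linarith)
      refine ⟨⌈Real.log (N / x)⌉₊, ?_, key _ h1, ?_⟩
      · have : (2 : ℝ) ≤ (⌈Real.log (N / x)⌉₊ : ℝ) := by linarith
        exact_mod_cast this
      · have h3 : (⌈Real.log (N / x)⌉₊ : ℝ) ≤ 2 * M := by linarith
        calc (⌈Real.log (N / x)⌉₊ : ℝ) * x ≤ 2 * M * x := mul_le_mul_of_nonneg_right h3 hx.le
          _ = 2 * (x * M) := by ring

end Pool.Agent.U473.GSP.GF
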