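import Pool.Agent.Q98.SPN.Stm

set_option autoImplicit false

open scoped Matrix.Norms.L2Operator Matrix

namespace Pool.Agent.U473.GSP.PLA

open Pool.Agent.Q98.SPN

theorem t_PLA : S_TRM → S_TRG → S_ADJ → S_PLA := by
  intro hM hG hA G _ _ k d Ψ hΨ a
  obtain ⟨h1, h2⟩ := hA G k d Ψ hΨ a
  have e1 := hG G (adj a * a)
  have e2 := hM k d (Ψ (adj a * a))
  have e3 : LinearMap.trace ℂ (MonoidAlgebra ℂ G) (LinearMap.mulLeft ℂ (adj a * a)) =
      LinearMap.trace ℂ ((i : Fin k) → Matrix (Fin (d i)) (Fin (d i)) ℂ)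
        (LinearMap.mulLeft ℂ (Ψ (adj a * a))) := by
    rw [← LinearMap.trace_conj' (LinearMap.mulLeft ℂ (adj a * a)) Ψ.toLinearEquiv]
    congr 1
    ext x
    simp [LinearEquiv.conj_apply]
  rw [e1, e2, h2] at e3
  have e4 := congrArg Complex.re e3
  rw [Complex.re_sum] at e4
  have e5 : ((Fintype.card G : ℂ) * ((∑ g, ‖a.coeff g‖ ^ 2 : ℝ) : ℂ)).re =
      (Fintype.card G : ℝ) * ∑ g, ‖a.coeff g‖ ^ 2 := by
    rw [← Complex.ofReal_natCast, ← Complex.ofReal_mul, Complex.ofReal_re]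
  rw [e5] at e4
  rw [e4]
  refine Finset.sum_congr rfl fun i _ => ?_
  rw [map_mul, Pi.mul_apply, h1 i, ← Complex.ofReal_natCast, Complex.re_ofReal_mul]

end Pool.Agent.U473.GSP.PLA
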